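import Pool.Agent.Lib.H57I.Defs

/-! # The induction over the lines -/

set_option autoImplicit false

namespace H57I

variable {V : Type} [DecidableEq V] {kind : V → Kind} {neg : Prop} {P : Refutation V}

/-- The gate list `L` can be extended by at most `n` gates so as to compute `f`. -/
def Ext (kind : V → Kind) (neg : Prop) (L : List ((V → Bool) → Bool)) (n : ℕ)
    (f : (V → Bool) → Bool) : Prop :=
  ∃ L', Circuit kind neg L' ∧ L ⊆ L' ∧ L'.length ≤ L.length + n ∧ f ∈ L'

theorem renC_injective (π : Equiv.Perm V) : Function.Injective (renC π) := by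
  intro C D h
  unfold renC at h
  refine Finset.image_injective ?_ h
  rintro ⟨x, s⟩ ⟨y, u⟩ h
  rw [Prod.mk.injEq] at h
  exact Prod.ext (π.injective h.1) h.2

theorem card_renC (π : Equiv.Perm V) (C : Clause V) : (renC π C).card = C.card := by
  unfold renC
  apply Finset.card_image_of_injective
  rintro ⟨x, s⟩ ⟨y, u⟩ h
  rw [Prod.mk.injEq] at h
  exact Prod.ext (π.injective h.1) h.2

theorem size_ren (π : Equiv.Perm V) (Γ : Cedent V) : size (ren π Γ) = size Γ := by
  unfold size ren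
  rw [Finset.sum_image fun x _ y _ h => renC_injective π h]
  simp only [card_renC]

theorem renC_mul (σ π : Equiv.Perm V) (C : Clause V) : renC σ (renC π C) = renC (σ * π) C := by
  unfold renC
  rw [Finset.image_image]
  rfl

theorem ren_mul (σ π : Equiv.Perm V) (Γ : Cedent V) : ren σ (ren π Γ) = ren (σ * π) Γ := by
  unfold ren
  rw [Finset.image_image]
  congr 1
  funext C
  exact renC_mul σ π C

theorem renC_one (C : Clause V) : renC 1 C = C := by
  unfold renC
  exact Finset.image_id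

theorem ren_one (Γ : Cedent V) : ren 1 Γ = Γ := by
  unfold ren
  have : renC (1 : Equiv.Perm V) = id := funext renC_one
  rw [this, Finset.image_id]

theorem ren_union (σ : Equiv.Perm V) (Γ Δ : Cedent V) : ren σ (Γ ∪ Δ) = ren σ Γ ∪ ren σ Δ :=
  Finset.image_union _ _

theorem ren_single (σ : Equiv.Perm V) (l : V × Bool) :
    ren σ ({{l}} : Cedent V) = {{(σ l.1, l.2)}} := by
  unfold ren renC
  rw [Finset.image_singleton, Finset.image_singleton]

theorem ren_insert (σ : Equiv.Perm V) (l : V × Bool) (Cs : Cedent V) :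
    ren σ (Cs.image (insert l)) = (ren σ Cs).image (insert (σ l.1, l.2)) := by
  unfold ren
  rw [Finset.image_image, Finset.image_image]
  congr 1
  funext C
  show renC σ (insert l C) = insert (σ l.1, l.2) (renC σ C)
  unfold renC
  rw [Finset.image_insert]

theorem ren_init (σ : Equiv.Perm V) (x : V) :
    ren σ ({{(x, true)}, {(x, false)}} : Cedent V) = {{(σ x, true)}, {(σ x, false)}} := by
  unfold ren renC
  rw [Finset.image_insert, Finset.image_singleton, Finset.image_singleton, Finset.image_singleton]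

theorem ren_subset (σ : Equiv.Perm V) {Γ Δ : Cedent V} (h : Γ ⊆ Δ) : ren σ Γ ⊆ ren σ Δ :=
  Finset.image_subset_image h

/-- The data of the two constructions: `Cl Γ f` is what the gate `f` for the cedent `Γ` has to satisfy,
`PA`, `PB` are the sides of a clause, `cost` bounds the number of new gates. -/
structure Method (kind : V → Kind) (neg : Prop) where
  Cl : Cedent V → ((V → Bool) → Bool) → Prop
  PA : Clause V → Prop
  PB : Clause V → Prop
  cost : Cedent V → ℕ
  sub : ∀ {C D : Clause V}, C ⊆ D → PA D ∨ PB D → PA C ∨ PB C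
  single : ∀ l : V × Bool, PA {l} ∨ PB {l}
  priv : ∀ {Γ f} {τ : Equiv.Perm V}, Private kind τ → Cl Γ f → Cl (ren τ Γ) f
  cost_ren : ∀ (σ : Equiv.Perm V) (Γ : Cedent V), cost (ren σ Γ) = cost Γ
  mono : ∀ {Γ Δ : Cedent V} {f}, Γ ⊆ Δ → Cl Γ f → Cl Δ f
  init : ∀ (x : V) {L}, Circuit kind neg L →
    ∃ f, Ext kind neg L (cost {{(x, true)}, {(x, false)}}) f ∧ Cl {{(x, true)}, {(x, false)}} f
  logic : ∀ {G H Cs : Cedent V} {l : V × Bool} {L fj fk}, Circuit kind neg L → fj ∈ L → fk ∈ L →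
    Cl (G ∪ Cs) fj → Cl (H ∪ {{l}}) fk → (∀ C ∈ G ∪ H ∪ Cs.image (insert l), PA C ∨ PB C) →
    ∃ f, Ext kind neg L (cost (G ∪ H ∪ Cs.image (insert l))) f ∧
      Cl (G ∪ H ∪ Cs.image (insert l)) f

section logic

variable {G H Cs : Cedent V} {l : V × Bool}

theorem mem_G {C : Clause V} (h : C ∈ G) : C ∈ G ∪ H ∪ Cs.image (insert l) :=
  Finset.mem_union_left _ (Finset.mem_union_left _ h)

theorem mem_H {C : Clause V} (h : C ∈ H) : C ∈ G ∪ H ∪ Cs.image (insert l) :=
  Finset.mem_union_left _ (Finset.mem_union_right _ h)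

theorem mem_Cs {C : Clause V} (h : C ∈ Cs) : insert l C ∈ G ∪ H ∪ Cs.image (insert l) :=
  Finset.mem_union_right _ (Finset.mem_image.2 ⟨C, h, rfl⟩)

end logic

variable (M : Method kind neg)

theorem reach_facts (hroot : ∀ C ∈ P.line P.last, M.PA C ∨ M.PB C) {i : ℕ} {σ : Equiv.Perm V}
    (h : Reach P i σ) : i ≤ P.last ∧ ∀ C ∈ ren σ (P.line i), M.PA C ∨ M.PB C := by
  induction h with
  | root => exact ⟨le_rfl, by rwa [ren_one]⟩
  | @weak i j σ h hr ih =>
    obtain ⟨h1, h2⟩ := ih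
    have hf := P.follows i h1
    rw [hr] at hf
    exact ⟨by have := hf.1; omega, fun C hC => h2 C (ren_subset σ hf.2 hC)⟩
  | @left i j k l σ h hr ih =>
    obtain ⟨h1, h2⟩ := ih
    have hf := P.follows i h1
    rw [hr] at hf
    obtain ⟨hj, hk, G, H, Cs, e1, e2, e3⟩ := hf
    refine ⟨by omega, fun C hC => ?_⟩
    rw [e3, ren_union, ren_union, ren_insert] at h2
    rw [e1, ren_union] at hC
    rcases Finset.mem_union.1 hC with hC | hC
    · exact h2 C (mem_G hC)
    · exact M.sub (Finset.subset_insert _ _) (h2 _ (mem_Cs hC))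
  | @right i j k l σ h hr ih =>
    obtain ⟨h1, h2⟩ := ih
    have hf := P.follows i h1
    rw [hr] at hf
    obtain ⟨hj, hk, G, H, Cs, e1, e2, e3⟩ := hf
    refine ⟨by omega, fun C hC => ?_⟩
    rw [e3, ren_union, ren_union, ren_insert] at h2
    rw [e2, ren_union, ren_single] at hC
    rcases Finset.mem_union.1 hC with hC | hC
    · exact h2 C (mem_H hC)
    · rw [Finset.mem_singleton.1 hC]
      exact M.single _
  | @perm i j π σ h hr ih =>
    obtain ⟨h1, h2⟩ := ih
    have hf := P.follows i h1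
    rw [hr] at hf
    refine ⟨by have := hf.1; omega, fun C hC => h2 C ?_⟩
    rw [hf.2, ren_mul]
    exact hC

theorem private_mul_inv {τ τ' : Equiv.Perm V} (h : Private kind τ) (h' : Private kind τ') :
    Private kind (τ * τ'⁻¹) := by
  intro x
  have h1 := h (τ'⁻¹ x)
  have h2 := h' (τ'⁻¹ x)
  have h0 : τ' (τ'⁻¹ x) = x := τ'.apply_symm_apply x
  rw [h0] at h2
  have hm : (τ * τ'⁻¹) x = τ (τ'⁻¹ x) := rfl
  rw [hm]
  refine ⟨h1.1.trans h2.1.symm, fun hx => ?_⟩
  have h3 : kind (τ'⁻¹ x) = .q := h2.1.symm.trans hx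
  rw [h1.2 h3]
  exact (h2.2 h3).symm

/-- One copy of one line. -/
theorem gadget (hroot : ∀ C ∈ P.line P.last, M.PA C ∨ M.PB C) {n : ℕ}
    {L : List ((V → Bool) → Bool)} (hL : Circuit kind neg L)
    (hinv : ∀ i < n, ∀ σ, Reach P i σ → ∃ f ∈ L, M.Cl (ren σ (P.line i)) f) {σ : Equiv.Perm V}
    (hσ : Reach P n σ) :
    ∃ f, Ext kind neg L (M.cost (P.line n)) f ∧ M.Cl (ren σ (P.line n)) f := by
  obtain ⟨h1, h2⟩ := reach_facts M hroot hσ
  have hf := P.follows n h1
  have hc := M.cost_ren σ (P.line n)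
  cases hr : P.rule n with
  | init x =>
    rw [hr] at hf
    have hf' : P.line n = {{(x, true)}, {(x, false)}} := hf
    rw [← hc, hf', ren_init]
    exact M.init (σ x) hL
  | weak j =>
    rw [hr] at hf
    obtain ⟨f, hfL, hfc⟩ := hinv j hf.1 σ (Reach.weak hσ hr)
    exact ⟨f, ⟨L, hL, fun e he => he, by omega, hfL⟩, M.mono (ren_subset σ hf.2) hfc⟩
  | logic j k l =>
    rw [hr] at hf
    obtain ⟨hj, hk, G, H, Cs, e1, e2, e3⟩ := hf
    obtain ⟨fj, hfj, hcj⟩ := hinv j hj σ (Reach.left hσ hr)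
    obtain ⟨fk, hfk, hck⟩ := hinv k hk σ (Reach.right hσ hr)
    rw [e1, ren_union] at hcj
    rw [e2, ren_union, ren_single] at hck
    rw [← hc]
    rw [e3, ren_union, ren_union, ren_insert] at h2 ⊢
    exact M.logic hL hfj hfk hcj hck h2
  | perm j π =>
    rw [hr] at hf
    obtain ⟨f, hfL, hfc⟩ := hinv j hf.1 (σ * π) (Reach.perm hσ hr)
    refine ⟨f, ⟨L, hL, fun e he => he, by omega, hfL⟩, ?_⟩
    rw [hf.2, ren_mul]
    exact hfc

theorem build (hroot : ∀ C ∈ P.line P.last, M.PA C ∨ M.PB C) (R : ℕ → Finset (Cedent V))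
    (hR : ∀ i σ, Reach P i σ → ∃ Δ ∈ R i, ∃ τ, Private kind τ ∧ ren σ (P.line i) = ren τ Δ)
    (n : ℕ) :
    ∃ L, Circuit kind neg L ∧
      L.length ≤ ∑ i ∈ Finset.range n, (R i).card * M.cost (P.line i) ∧
      ∀ i < n, ∀ σ, Reach P i σ → ∃ f ∈ L, M.Cl (ren σ (P.line i)) f := by
  classical
  induction n with
  | zero => exact ⟨[], Circuit.nil, by simp, fun i hi => absurd hi (Nat.not_lt_zero _)⟩
  | succ n ih =>
    obtain ⟨L, hL, hlen, hinv⟩ := ih
    have key : ∀ s : Finset (Cedent V),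
        ∃ L', Circuit kind neg L' ∧ L ⊆ L' ∧ L'.length ≤ L.length + s.card * M.cost (P.line n) ∧
          ∀ σ, Reach P n σ → (∃ Δ ∈ s, ∃ τ, Private kind τ ∧ ren σ (P.line n) = ren τ Δ) →
            ∃ f ∈ L', M.Cl (ren σ (P.line n)) f := by
      intro s
      induction s using Finset.induction_on with
      | empty =>
        refine ⟨L, hL, fun e he => he, by simp, fun σ _ h => ?_⟩
        obtain ⟨Δ, hΔ, _⟩ := h
        exact absurd hΔ (Finset.notMem_empty _)
      | insert Δ s hΔ ihs =>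
        obtain ⟨L1, hL1, hsub1, hlen1, hinv1⟩ := ihs
        by_cases hex : ∃ σ, Reach P n σ ∧ ∃ τ, Private kind τ ∧ ren σ (P.line n) = ren τ Δ
        · obtain ⟨σ0, hσ0, τ0, hτ0, he0⟩ := hex
          obtain ⟨f, ⟨L2, hL2, hsub2, hlen2, hf⟩, hfc⟩ := gadget M hroot hL1
            (fun i hi σ hσ => by
              obtain ⟨f, hf, hfc⟩ := hinv i hi σ hσ
              exact ⟨f, hsub1 hf, hfc⟩) hσ0
          refine ⟨L2, hL2, fun e he => hsub2 (hsub1 he), ?_, fun σ hσ h => ?_⟩
          · rw [Finset.card_insert_of_notMem hΔ, add_mul, one_mul]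
            omega
          · obtain ⟨Δ', hΔ', τ, hτ, he⟩ := h
            rcases Finset.mem_insert.1 hΔ' with rfl | hΔ'
            · refine ⟨f, hf, ?_⟩
              have h1 := M.priv (private_mul_inv hτ hτ0) hfc
              rwa [he0, ren_mul, inv_mul_cancel_right, ← he] at h1
            · obtain ⟨g, hg, hgc⟩ := hinv1 σ hσ ⟨Δ', hΔ', τ, hτ, he⟩
              exact ⟨g, hsub2 hg, hgc⟩
        · refine ⟨L1, hL1, hsub1, ?_, fun σ hσ h => ?_⟩
          · rw [Finset.card_insert_of_notMem hΔ, add_mul, one_mul]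
            omega
          · obtain ⟨Δ', hΔ', τ, hτ, he⟩ := h
            rcases Finset.mem_insert.1 hΔ' with rfl | hΔ'
            · exact absurd ⟨σ, hσ, τ, hτ, he⟩ hex
            · exact hinv1 σ hσ ⟨Δ', hΔ', τ, hτ, he⟩
    obtain ⟨L', hL', hsub', hlen', hinv'⟩ := key (R n)
    refine ⟨L', hL', ?_, fun i hi σ hσ => ?_⟩
    · rw [Finset.sum_range_succ]
      omega
    · rcases Nat.lt_succ_iff_lt_or_eq.1 hi with h | h
      · obtain ⟨f, hf, hfc⟩ := hinv i h σ hσ
        exact ⟨f, hsub' hf, hfc⟩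
      · subst h
        exact hinv' σ hσ (hR i σ hσ)

end H57I
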