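import Pool.Agent.Lib.H57I.Build

/-! # The value of a renamed copy (general case) -/

set_option autoImplicit false

namespace H57I

variable {V : Type} [DecidableEq V] {kind : V → Kind}

/-- `b` agrees with `a` on the shared variables. -/
def Compat (kind : V → Kind) (a b : V → Bool) : Prop := ∀ x, kind x = .q → b x = a x

/-- No variable of `C` is of the kind `s`. -/
def No (kind : V → Kind) (s : Kind) (C : Clause V) : Prop := ∀ l ∈ C, kind l.1 ≠ s

/-- `f` tells which part of `Γ` is unsatisfiable; `PA`, `PB` are the two parts. -/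
def Claim (kind : V → Kind) (PA PB : Clause V → Prop) (Γ : Cedent V) (f : (V → Bool) → Bool) :
    Prop :=
  ∀ a b, Compat kind a b →
    (f a = false → ¬ ∀ C ∈ Γ, PA C → SatC b C) ∧
    (f a = true → ¬ ∀ C ∈ Γ, PB C → SatC b C)

theorem claim_mono {PA PB : Clause V → Prop} {Γ Γ' : Cedent V} {f : (V → Bool) → Bool}
    (h : Γ ⊆ Γ') (hf : Claim kind PA PB Γ f) : Claim kind PA PB Γ' f := by
  intro a b hab
  obtain ⟨h0, h1⟩ := hf a b hab
  exact ⟨fun hfa hall => h0 hfa fun C hC hn => hall C (h hC) hn,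
    fun hfa hall => h1 hfa fun C hC hn => hall C (h hC) hn⟩

theorem claim_private {PA PB : Clause V → Prop} {Γ : Cedent V} {f : (V → Bool) → Bool}
    {τ : Equiv.Perm V} (hτ : Private kind τ) (hA : ∀ C, PA C → PA (renC τ C))
    (hB : ∀ C, PB C → PB (renC τ C)) (hf : Claim kind PA PB Γ f) :
    Claim kind PA PB (ren τ Γ) f := by
  intro a b hab
  have hcomp : Compat kind a (b ∘ τ) := fun x hx => by
    show b (τ x) = a x
    rw [(hτ x).2 hx]
    exact hab x hx
  obtain ⟨h0, h1⟩ := hf a (b ∘ τ) hcomp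
  have key : ∀ Q : Clause V → Prop, (∀ C, Q C → Q (renC τ C)) →
      (∀ C ∈ ren τ Γ, Q C → SatC b C) → ∀ C ∈ Γ, Q C → SatC (b ∘ τ) C := by
    intro Q hQ hall C hC hn
    obtain ⟨l, hl, hbl⟩ := hall (renC τ C) (Finset.mem_image.2 ⟨C, hC, rfl⟩) (hQ C hn)
    obtain ⟨l', hl', rfl⟩ := Finset.mem_image.1 hl
    exact ⟨l', hl', hbl⟩
  exact ⟨fun hfa hall => h0 hfa (key _ hA hall), fun hfa hall => h1 hfa (key _ hB hall)⟩

theorem no_private {τ : Equiv.Perm V} (hτ : Private kind τ) {s : Kind} (C : Clause V)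
    (h : No kind s C) : No kind s (renC τ C) := by
  intro l hl
  obtain ⟨l', hl', rfl⟩ := Finset.mem_image.1 hl
  show kind (τ l'.1) ≠ s
  rw [(hτ l'.1).1]
  exact h l' hl'

/-- Both unit clauses of a variable are not satisfiable. -/
theorem init_unsat {PA : Clause V → Prop} (x : V) (h1 : PA {(x, true)}) (h2 : PA {(x, false)})
    (b : V → Bool) :
    ¬ ∀ C ∈ ({{(x, true)}, {(x, false)}} : Cedent V), PA C → SatC b C := by
  intro hall
  have h1 : SatC b {(x, true)} := hall _ (by simp) h1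
  have h2 : SatC b {(x, false)} := hall _ (by simp) h2
  obtain ⟨l, hl, h1⟩ := h1
  obtain ⟨l', hl', h2⟩ := h2
  rw [Finset.mem_singleton.1 hl] at h1
  rw [Finset.mem_singleton.1 hl'] at h2
  rw [h1] at h2
  exact Bool.noConfusion h2

theorem no_single {s : Kind} {l : V × Bool} (h : kind l.1 ≠ s) : No kind s {l} := by
  intro l' hl'
  rw [Finset.mem_singleton.1 hl']
  exact h

section logic

variable {G H Cs : Cedent V} {l : V × Bool} {fj fk : (V → Bool) → Bool}

theorem satC_insert {b : V → Bool} {C : Clause V} (h : SatC b (insert l C)) (hb : b l.1 ≠ l.2) :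
    SatC b C := by
  obtain ⟨l', hl', hbl⟩ := h
  rcases Finset.mem_insert.1 hl' with rfl | h
  · exact absurd hbl hb
  · exact ⟨l', h, hbl⟩

theorem no_insert {s : Kind} {C : Clause V} (hl : kind l.1 ≠ s) (h : No kind s C) :
    No kind s (insert l C) := by
  intro l' hl'
  rcases Finset.mem_insert.1 hl' with rfl | h'
  · exact hl
  · exact h l' h'

/-- If `l` is true, the second premise is used. -/
theorem down_k {Q : Clause V → Prop} {b : V → Bool} (hl : Q {l} → b l.1 = l.2)
    (hall : ∀ C ∈ G ∪ H ∪ Cs.image (insert l), Q C → SatC b C) :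
    ∀ C ∈ H ∪ {{l}}, Q C → SatC b C := by
  intro C hC hn
  rcases Finset.mem_union.1 hC with hC | hC
  · exact hall C (mem_H hC) hn
  · rw [Finset.mem_singleton.1 hC] at hn ⊢
    exact ⟨l, Finset.mem_singleton_self l, hl hn⟩

/-- If `l` is false, the first premise is used. -/
theorem down_j {Q : Clause V → Prop} {b : V → Bool}
    (hl : ∀ C ∈ Cs, Q C → SatC b C ∨ (Q (insert l C) ∧ b l.1 ≠ l.2))
    (hall : ∀ C ∈ G ∪ H ∪ Cs.image (insert l), Q C → SatC b C) :
    ∀ C ∈ G ∪ Cs, Q C → SatC b C := by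
  intro C hC hn
  rcases Finset.mem_union.1 hC with hC | hC
  · exact hall C (mem_G hC) hn
  · rcases hl C hC hn with h | ⟨h, h'⟩
    · exact h
    · exact satC_insert (hall _ (mem_Cs hC) h) h'

theorem claim_logic_q (hq : kind l.1 = .q)
    (hj : Claim kind (No kind .r) (No kind .p) (G ∪ Cs) fj)
    (hk : Claim kind (No kind .r) (No kind .p) (H ∪ {{l}}) fk) {f : (V → Bool) → Bool}
    (hf : ∀ a, f a = if a l.1 = l.2 then fk a else fj a) :
    Claim kind (No kind .r) (No kind .p) (G ∪ H ∪ Cs.image (insert l)) f := by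
  intro a b hab
  have hb : b l.1 = a l.1 := hab _ hq
  obtain ⟨hj0, hj1⟩ := hj a b hab
  obtain ⟨hk0, hk1⟩ := hk a b hab
  rw [hf]
  by_cases h : a l.1 = l.2
  · rw [if_pos h]
    exact ⟨fun hfa hall => hk0 hfa (down_k (fun _ => hb.trans h) hall),
      fun hfa hall => hk1 hfa (down_k (fun _ => hb.trans h) hall)⟩
  · rw [if_neg h]
    have hne : b l.1 ≠ l.2 := by rwa [hb]
    exact ⟨fun hfa hall => hj0 hfa (down_j (fun C _ hn =>
        Or.inr ⟨no_insert (by rw [hq]; exact nofun) hn, hne⟩) hall),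
      fun hfa hall => hj1 hfa (down_j (fun C _ hn =>
        Or.inr ⟨no_insert (by rw [hq]; exact nofun) hn, hne⟩) hall)⟩

/-- All clauses `D` which contain `l` and whose other variables are shared remain true without
`l`. -/
def AllQ (kind : V → Kind) (Γ : Cedent V) (l : V × Bool) (a : V → Bool) : Prop :=
  ∀ D ∈ Γ, l ∈ D → (∀ l' ∈ D.erase l, kind l'.1 = .q) →
    ∃ l' ∈ D.erase l, kind l'.1 = .q ∧ a l'.1 = l'.2

theorem allQ_false {a b : V → Bool} (hab : Compat kind a b) {Γ : Cedent V} (hb : b l.1 ≠ l.2)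
    (hs : ∀ D ∈ Γ, l ∈ D → SatC b D) : AllQ kind Γ l a := by
  intro D hD hlD hq
  obtain ⟨l', hl', hbl⟩ := hs D hD hlD
  have hne : l' ≠ l := by
    rintro rfl
    exact hb hbl
  have hl'' : l' ∈ D.erase l := Finset.mem_erase.2 ⟨hne, hl'⟩
  exact ⟨l', hl'', hq l' hl'', by rw [← hab _ (hq l' hl'')]; exact hbl⟩

theorem allQ_sat {a b : V → Bool} (hab : Compat kind a b) {Γ : Cedent V} (h : AllQ kind Γ l a)
    {C : Clause V} (hC : insert l C ∈ Γ) (hlC : l ∉ C)
    (hq : ∀ l' ∈ C, kind l'.1 = .q) : SatC b C := by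
  have he : (insert l C).erase l = C := Finset.erase_insert hlC
  obtain ⟨l', hl', hy, hay⟩ := h _ hC (Finset.mem_insert_self _ _) (by rw [he]; exact hq)
  rw [he] at hl'
  exact ⟨l', hl', by rw [hab _ hy]; exact hay⟩

/-- The common part of the private cases: `s` is the kind of `l`, `s'` the other private kind. -/
theorem private_case {s s' : Kind} (hss : s ≠ s') (hq : ∀ z : Kind, z ≠ s → z ≠ s' → z = .q)
    (hs : kind l.1 = s)
    (hnm : ∀ C ∈ G ∪ H ∪ Cs.image (insert l), No kind s' C ∨ No kind s C)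
    {a b : V → Bool} (hab : Compat kind a b) :
    ((∀ C ∈ G ∪ H ∪ Cs.image (insert l), No kind s' C → SatC b C) →
      (∀ C ∈ H ∪ {{l}}, No kind s' C → SatC b C) ∨
      (AllQ kind (G ∪ H ∪ Cs.image (insert l)) l a ∧ ∀ C ∈ G ∪ Cs, No kind s' C → SatC b C)) ∧
    ((∀ C ∈ G ∪ H ∪ Cs.image (insert l), No kind s C → SatC b C) →
      (∀ C ∈ H ∪ {{l}}, No kind s C → SatC b C) ∧
      (AllQ kind (G ∪ H ∪ Cs.image (insert l)) l a → ∀ C ∈ G ∪ Cs, No kind s C → SatC b C)) := by
  have hlD : ∀ D ∈ G ∪ H ∪ Cs.image (insert l), l ∈ D → No kind s' D := by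
    intro D hD hl
    rcases hnm D hD with h | h
    · exact h
    · exact absurd hs (h l hl)
  constructor
  · intro hall
    by_cases hb : b l.1 = l.2
    · exact Or.inl (down_k (fun _ => hb) hall)
    · refine Or.inr ⟨allQ_false hab hb fun D hD hl => hall D hD (hlD D hD hl), ?_⟩
      refine down_j (fun C hC hn => Or.inr ⟨?_, hb⟩) hall
      exact no_insert (by rw [hs]; exact hss) hn
  · intro hall
    refine ⟨down_k (fun h => absurd hs (h l (Finset.mem_singleton_self l))) hall, fun hA => ?_⟩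
    intro C hC hn
    rcases Finset.mem_union.1 hC with hC | hC
    · exact hall C (mem_G hC) hn
    · have hlC : l ∉ C := fun h => hn l h hs
      have h1 := hlD _ (mem_Cs (G := G) (H := H) (l := l) hC) (Finset.mem_insert_self _ _)
      refine allQ_sat hab hA (mem_Cs hC) hlC fun l' hl' => ?_
      exact hq _ (hn l' hl') (h1 l' (Finset.mem_insert_of_mem hl'))

theorem kind_q {z : Kind} (hp : z ≠ .p) (hr : z ≠ .r) : z = .q := by
  cases z with
  | p => exact absurd rfl hp
  | r => exact absurd rfl hr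
  | q => rfl

theorem claim_logic_p (hp : kind l.1 = .p)
    (hj : Claim kind (No kind .r) (No kind .p) (G ∪ Cs) fj)
    (hk : Claim kind (No kind .r) (No kind .p) (H ∪ {{l}}) fk)
    (hnm : ∀ C ∈ G ∪ H ∪ Cs.image (insert l), No kind .r C ∨ No kind .p C)
    {g f : (V → Bool) → Bool}
    (hg : ∀ a, g a = true ↔ AllQ kind (G ∪ H ∪ Cs.image (insert l)) l a)
    (hf : ∀ a, f a = (fj a && g a || fk a)) :
    Claim kind (No kind .r) (No kind .p) (G ∪ H ∪ Cs.image (insert l)) f := by
  intro a b hab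
  obtain ⟨hj0, hj1⟩ := hj a b hab
  obtain ⟨hk0, hk1⟩ := hk a b hab
  obtain ⟨h0, h1⟩ := private_case (s := .p) (s' := .r) (nofun)
    (fun z h1 h2 => kind_q h1 h2) hp hnm hab
  rw [hf]
  constructor
  · intro hfa hall
    rw [Bool.or_eq_false_iff, Bool.and_eq_false_iff] at hfa
    rcases h0 hall with h | ⟨hA, h⟩
    · exact hk0 hfa.2 h
    · rcases hfa.1 with h2 | h2
      · exact hj0 h2 h
      · rw [(hg a).2 hA] at h2
        exact Bool.noConfusion h2
  · intro hfa hall
    rw [Bool.or_eq_true, Bool.and_eq_true] at hfa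
    obtain ⟨h2, h3⟩ := h1 hall
    rcases hfa with h | h
    · exact hj1 h.1 (h3 ((hg a).1 h.2))
    · exact hk1 h h2

theorem claim_logic_r (hr : kind l.1 = .r)
    (hj : Claim kind (No kind .r) (No kind .p) (G ∪ Cs) fj)
    (hk : Claim kind (No kind .r) (No kind .p) (H ∪ {{l}}) fk)
    (hnm : ∀ C ∈ G ∪ H ∪ Cs.image (insert l), No kind .r C ∨ No kind .p C)
    {g f : (V → Bool) → Bool}
    (hg : ∀ a, g a = true ↔ AllQ kind (G ∪ H ∪ Cs.image (insert l)) l a)
    (hf : ∀ a, f a = ((fj a || !g a) && fk a)) :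
    Claim kind (No kind .r) (No kind .p) (G ∪ H ∪ Cs.image (insert l)) f := by
  intro a b hab
  obtain ⟨hj0, hj1⟩ := hj a b hab
  obtain ⟨hk0, hk1⟩ := hk a b hab
  obtain ⟨h0, h1⟩ := private_case (s := .r) (s' := .p) (nofun)
    (fun z h1 h2 => kind_q h2 h1) hr (fun C hC => (hnm C hC).symm) hab
  rw [hf]
  constructor
  · intro hfa hall
    rw [Bool.and_eq_false_iff, Bool.or_eq_false_iff] at hfa
    obtain ⟨h2, h3⟩ := h1 hall
    rcases hfa with h | h
    · refine hj0 h.1 (h3 ((hg a).1 ?_))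
      cases hga : g a
      · rw [hga] at h
        exact Bool.noConfusion h.2
      · rfl
    · exact hk0 h h2
  · intro hfa hall
    rw [Bool.and_eq_true, Bool.or_eq_true] at hfa
    rcases h0 hall with h | ⟨hA, h⟩
    · exact hk1 hfa.2 h
    · rcases hfa.1 with h2 | h2
      · exact hj1 h2 h
      · rw [(hg a).2 hA] at h2
        exact Bool.noConfusion h2

end logic

end H57I
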