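import Mathlib

/-! # GCNF with the permutation rule: refutations, renamed copies, circuits (MP_40874a_lc) -/

set_option autoImplicit false

namespace H57I

variable {V : Type} [DecidableEq V]

/-- A clause: a finite set of literals; `(x, true)` is the literal `x`, `(x, false)` its negation. -/
abbrev Clause (V : Type) := Finset (V × Bool)

/-- A cedent: a finite set of clauses. -/
abbrev Cedent (V : Type) := Finset (Clause V)

/-- `a` satisfies the clause `C`. -/
def SatC (a : V → Bool) (C : Clause V) : Prop := ∃ l ∈ C, a l.1 = l.2

/-- `a` satisfies the cedent `Γ`. -/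
def Sat (a : V → Bool) (Γ : Cedent V) : Prop := ∀ C ∈ Γ, SatC a C

/-- Number of symbols of a cedent (one for each literal, one for each clause and one more). -/
def size (Γ : Cedent V) : ℕ := 1 + ∑ C ∈ Γ, (1 + C.card)

/-- The clause obtained by replacing every variable `x` by `π x`. -/
def renC (π : Equiv.Perm V) (C : Clause V) : Clause V := C.image fun l => (π l.1, l.2)

/-- The cedent obtained by replacing every variable `x` by `π x`. -/
def ren (π : Equiv.Perm V) (Γ : Cedent V) : Cedent V := Γ.image (renC π)

/-- The justification of a line. -/
inductive Rule (V : Type)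
  /-- initial cedent `{x}, {¬x}` -/
  | init (x : V)
  /-- structural rule from line `j` -/
  | weak (j : ℕ)
  /-- logical rule with auxiliary literal `l` from the lines `j` and `k` -/
  | logic (j k : ℕ) (l : V × Bool)
  /-- permutation rule from line `j` -/
  | perm (j : ℕ) (π : Equiv.Perm V)

/-- Line `i` follows from earlier lines by the given rule. -/
def Follows (line : ℕ → Cedent V) (i : ℕ) : Rule V → Prop
  | .init x => line i = {{(x, true)}, {(x, false)}}
  | .weak j => j < i ∧ line j ⊆ line i
  | .logic j k l => j < i ∧ k < i ∧ ∃ (G H Cs : Cedent V), line j = G ∪ Cs ∧ line k = H ∪ {{l}} ∧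
      line i = G ∪ H ∪ Cs.image (insert l)
  | .perm j π => j < i ∧ line i = ren π (line j)

/-- A GCNF+permutation refutation with the lines `line 0, ..., line last`. -/
structure Refutation (V : Type) [DecidableEq V] where
  last : ℕ
  line : ℕ → Cedent V
  rule : ℕ → Rule V
  follows : ∀ i ≤ last, Follows line i (rule i)

/-- The three kinds of variables: private ones of the first part (`p`), shared ones (`q`), private ones
of the second part (`r`). -/
inductive Kind
  | p | q | r

/-- `Reach P i σ`: on some path from the last line up to line `i` the variables are renamed by `σ`, the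
product of the permutations on the path; so `ren σ (P.line i)` is a renamed copy of line `i` in the
variables of the last line. -/
inductive Reach (P : Refutation V) : ℕ → Equiv.Perm V → Prop
  | root : Reach P P.last 1
  | weak {i j : ℕ} {σ : Equiv.Perm V} (h : Reach P i σ) (hr : P.rule i = .weak j) : Reach P j σ
  | left {i j k : ℕ} {l : V × Bool} {σ : Equiv.Perm V} (h : Reach P i σ)
      (hr : P.rule i = .logic j k l) : Reach P j σ
  | right {i j k : ℕ} {l : V × Bool} {σ : Equiv.Perm V} (h : Reach P i σ)
      (hr : P.rule i = .logic j k l) : Reach P k σ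
  | perm {i j : ℕ} {π σ : Equiv.Perm V} (h : Reach P i σ) (hr : P.rule i = .perm j π) :
      Reach P j (σ * π)

/-- A renaming of the private variables: it fixes all shared variables and maps each of the two kinds of
private variables to itself. -/
def Private (kind : V → Kind) (τ : Equiv.Perm V) : Prop :=
  ∀ x, kind (τ x) = kind x ∧ (kind x = .q → τ x = x)

/-- Every renamed copy of line `i` is a private renaming of a member of `R i`. -/
def Copies (P : Refutation V) (kind : V → Kind) (R : ℕ → Finset (Cedent V)) : Prop :=
  ∀ i σ, Reach P i σ → ∃ Δ ∈ R i, ∃ τ, Private kind τ ∧ ren σ (P.line i) = ren τ Δ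

/-- `Circuit kind neg L`: the Boolean functions in the list `L` are the gates of a circuit whose inputs
are the shared variables: each one is a constant, an input, or a negation (only if `neg` holds), a
conjunction or a disjunction of functions further down the list. -/
inductive Circuit (kind : V → Kind) (neg : Prop) : List ((V → Bool) → Bool) → Prop
  | nil : Circuit kind neg []
  | const {L} (h : Circuit kind neg L) (b : Bool) : Circuit kind neg ((fun _ => b) :: L)
  | input {L} (h : Circuit kind neg L) (x : V) (hx : kind x = .q) :
      Circuit kind neg ((fun a => a x) :: L)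
  | not {L} (h : Circuit kind neg L) (hn : neg) {f} (hf : f ∈ L) :
      Circuit kind neg ((fun a => !f a) :: L)
  | and {L} (h : Circuit kind neg L) {f g} (hf : f ∈ L) (hg : g ∈ L) :
      Circuit kind neg ((fun a => f a && g a) :: L)
  | or {L} (h : Circuit kind neg L) {f g} (hf : f ∈ L) (hg : g ∈ L) :
      Circuit kind neg ((fun a => f a || g a) :: L)

/-- `f` is an interpolant: it is true under every assignment satisfying `A`, and no assignment satisfies
both `f` and `B`. -/
def Interpolates (f : (V → Bool) → Bool) (A B : Cedent V) : Prop :=
  (∀ a, Sat a A → f a = true) ∧ ∀ a, ¬ (f a = true ∧ Sat a B)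

/-- The shared variables occur only positively in `A`. -/
def PosQ (kind : V → Kind) (A : Cedent V) : Prop := ∀ C ∈ A, ∀ l ∈ C, kind l.1 = .q → l.2 = true

/-- There is an interpolant with at most `15 * ∑ i, N i * size (line i)` gates, without negations if the
shared variables occur only positively in `A`. -/
def Bound (P : Refutation V) (kind : V → Kind) (A B : Cedent V) (N : ℕ → ℕ) : Prop :=
  ∃ L f, Circuit kind (¬ PosQ kind A) L ∧ f ∈ L ∧ Interpolates f A B ∧
    L.length ≤ 15 * ∑ i ∈ Finset.range (P.last + 1), N i * size (P.line i)

/-- The group of the private renamings. -/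
def priv (kind : V → Kind) : Subgroup (Equiv.Perm V) where
  carrier := {τ | Private kind τ}
  one_mem' := fun x => ⟨rfl, fun _ => rfl⟩
  mul_mem' := by
    intro τ τ' h h' x
    have h1 := h (τ' x)
    have h2 := h' x
    have hm : (τ * τ') x = τ (τ' x) := rfl
    rw [hm]
    refine ⟨h1.1.trans h2.1, fun hx => ?_⟩
    rw [h2.2 hx]
    exact (h x).2 hx
  inv_mem' := by
    intro τ h x
    have h1 := h (τ⁻¹ x)
    have h0 : τ (τ⁻¹ x) = x := τ.apply_symm_apply x
    rw [h0] at h1
    exact ⟨h1.1.symm, fun hx => (h1.2 (h1.1.symm.trans hx)).symm⟩

end H57I
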