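import Pool.Agent.Lib.H57I.Main

/-! # The final theorem -/

set_option autoImplicit false

namespace H57I

variable {V : Type} [DecidableEq V]

theorem reach_le {P : Refutation V} {i : ℕ} {σ : Equiv.Perm V} (h : Reach P i σ) : i ≤ P.last := by
  induction h with
  | root => exact le_rfl
  | @weak i j σ h hr ih =>
    have hf := P.follows i ih
    rw [hr] at hf
    have := hf.1
    omega
  | @left i j k l σ h hr ih =>
    have hf := P.follows i ih
    rw [hr] at hf
    have := hf.1
    omega
  | @right i j k l σ h hr ih =>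
    have hf := P.follows i ih
    rw [hr] at hf
    have := hf.2.1
    omega
  | @perm i j π σ h hr ih =>
    have hf := P.follows i ih
    rw [hr] at hf
    have := hf.1
    omega

theorem reach_mem {P : Refutation V} {G : Subgroup (Equiv.Perm V)}
    (hG : ∀ i ≤ P.last, ∀ j π, P.rule i = .perm j π → π ∈ G) {i : ℕ} {σ : Equiv.Perm V}
    (h : Reach P i σ) : σ ∈ G := by
  induction h with
  | root => exact G.one_mem
  | weak h hr ih => exact ih
  | left h hr ih => exact ih
  | right h hr ih => exact ih
  | @perm i j π σ h hr ih => exact G.mul_mem ih (hG i (reach_le h) j π hr)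

/-- The copies up to private renamings are at most as many as the index of the private renamings. -/
theorem copies_of_group (P : Refutation V) (kind : V → Kind) (G : Subgroup (Equiv.Perm V))
    (hG : ∀ i ≤ P.last, ∀ j π, P.rule i = .perm j π → π ∈ G)
    (hN : (priv kind).relIndex G ≠ 0) :
    ∃ R : ℕ → Finset (Cedent V), Copies P kind R ∧ ∀ i, (R i).card ≤ (priv kind).relIndex G := by
  classical
  have hidx : ((priv kind).subgroupOf G).FiniteIndex := ⟨hN⟩
  have hfin : Finite (G ⧸ (priv kind).subgroupOf G) := Subgroup.finite_quotient_of_finiteIndex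
  have := Fintype.ofFinite (G ⧸ (priv kind).subgroupOf G)
  have hcard : Fintype.card (G ⧸ (priv kind).subgroupOf G) = (priv kind).relIndex G := by
    rw [← Nat.card_eq_fintype_card]
    rfl
  refine ⟨fun i => Finset.univ.image fun c : G ⧸ (priv kind).subgroupOf G =>
    ren ((Quotient.out c : G)⁻¹ : G) (P.line i), fun i σ hσ => ?_, fun i => ?_⟩
  · have hmem := reach_mem hG hσ
    set g : G := (⟨σ, hmem⟩ : G)⁻¹ with hg
    obtain ⟨k, hk⟩ := QuotientGroup.mk_out_eq_mul ((priv kind).subgroupOf G) g
    refine ⟨_, Finset.mem_image.2 ⟨(g : G ⧸ (priv kind).subgroupOf G), Finset.mem_univ _, rfl⟩,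
      (k : G), ?_, ?_⟩
    · exact Subgroup.mem_subgroupOf.1 k.2
    · rw [ren_mul, hk, hg]
      congr 1
      simp
  · refine Finset.card_image_le.trans ?_
    rw [Finset.card_univ, hcard]

theorem final (P : Refutation V) (kind : V → Kind) (A B : Cedent V)
    (hA : ∀ C ∈ A, ∀ l ∈ C, kind l.1 ≠ .r) (hB : ∀ C ∈ B, ∀ l ∈ C, kind l.1 ≠ .p)
    (h : P.line P.last = A ∪ B) :
    (∀ R, Copies P kind R → Bound P kind A B fun i => (R i).card) ∧
    ∀ G : Subgroup (Equiv.Perm V), (∀ i ≤ P.last, ∀ j π, P.rule i = .perm j π → π ∈ G) →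
      (priv kind).relIndex G ≠ 0 → Bound P kind A B fun _ => (priv kind).relIndex G := by
  refine ⟨bound_copies P kind A B hA hB h, fun G hG hN => ?_⟩
  obtain ⟨R, hR, hcard⟩ := copies_of_group P kind G hG hN
  obtain ⟨L, f, hL, hf, hint, hlen⟩ := bound_copies P kind A B hA hB h R hR
  refine ⟨L, f, hL, hf, hint, hlen.trans ?_⟩
  refine Nat.mul_le_mul_left _ (Finset.sum_le_sum fun i _ => ?_)
  exact Nat.mul_le_mul_right _ (hcard i)

end H57I
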