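import Pool.Agent.Lib.H57I.Claim

/-! # Gates (general case) -/

set_option autoImplicit false

namespace H57I

variable {V : Type} [DecidableEq V] {kind : V → Kind} {neg : Prop}

/-- A literal of a shared variable. -/
theorem ext_lit {L : List ((V → Bool) → Bool)} (h : Circuit kind neg L) {y : V}
    (hy : kind y = .q) (s : Bool) (hs : neg ∨ s = true) :
    Ext kind neg L 2 (fun a => decide (a y = s)) := by
  cases s
  · refine ⟨(fun a => !a y) :: (fun a => a y) :: L,
      Circuit.not (Circuit.input h y hy) (hs.resolve_right nofun) List.mem_cons_self,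
      fun f hf => List.mem_cons_of_mem _ (List.mem_cons_of_mem _ hf), by simp, ?_⟩
    have : (fun a : V → Bool => decide (a y = false)) = fun a => !a y := by
      funext a
      cases a y <;> rfl
    rw [this]
    exact List.mem_cons_self
  · refine ⟨(fun a => a y) :: L, Circuit.input h y hy,
      fun f hf => List.mem_cons_of_mem _ hf, by simp, ?_⟩
    have : (fun a : V → Bool => decide (a y = true)) = fun a => a y := by
      funext a
      cases a y <;> rfl
    rw [this]
    exact List.mem_cons_self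

/-- The truth value of the shared part of a clause. -/
theorem ext_clause {L : List ((V → Bool) → Bool)} (h : Circuit kind neg L) (C : Clause V)
    (hn : ∀ l ∈ C, kind l.1 = .q → neg ∨ l.2 = true) :
    ∃ f, Ext kind neg L (3 * C.card + 1) f ∧
      ∀ a, f a = true ↔ ∃ l ∈ C, kind l.1 = .q ∧ a l.1 = l.2 := by
  classical
  induction C using Finset.induction_on with
  | empty =>
    refine ⟨fun _ => false, ⟨(fun _ => false) :: L, Circuit.const h false,
      fun f hf => List.mem_cons_of_mem _ hf, by simp, List.mem_cons_self⟩, fun a => ?_⟩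
    simp
  | insert l C hl ih =>
    obtain ⟨f, ⟨L', hL', hsub, hlen, hf⟩, hfa⟩ :=
      ih fun l' hl' => hn l' (Finset.mem_insert_of_mem hl')
    rw [Finset.card_insert_of_notMem hl]
    by_cases hv : kind l.1 = .q
    · obtain ⟨L2, hL2, hsub2, hlen2, hf2⟩ := ext_lit hL' hv l.2 (hn l (Finset.mem_insert_self _ _) hv)
      refine ⟨fun a => f a || decide (a l.1 = l.2),
        ⟨_, Circuit.or hL2 (hsub2 hf) hf2, fun g hg => List.mem_cons_of_mem _ (hsub2 (hsub hg)), ?_,
          List.mem_cons_self⟩, fun a => ?_⟩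
      · rw [List.length_cons]
        omega
      · rw [Bool.or_eq_true, hfa, decide_eq_true_eq]
        constructor
        · rintro (⟨l', hl', h⟩ | h)
          · exact ⟨l', Finset.mem_insert_of_mem hl', h⟩
          · exact ⟨l, Finset.mem_insert_self _ _, hv, h⟩
        · rintro ⟨l', hl', hy, h⟩
          rcases Finset.mem_insert.1 hl' with rfl | hl'
          · exact Or.inr h
          · exact Or.inl ⟨l', hl', hy, h⟩
    · refine ⟨f, ⟨L', hL', hsub, by omega, hf⟩, fun a => ?_⟩
      rw [hfa]
      constructor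
      · rintro ⟨l', hl', h⟩
        exact ⟨l', Finset.mem_insert_of_mem hl', h⟩
      · rintro ⟨l', hl', hy, h⟩
        rcases Finset.mem_insert.1 hl' with rfl | hl'
        · exact absurd hy hv
        · exact ⟨l', hl', hy, h⟩

/-- The conjunction of the truth values of the shared parts of the clauses `c D`, `D ∈ S`. -/
theorem ext_all {L : List ((V → Bool) → Bool)} (h : Circuit kind neg L) (c : Clause V → Clause V)
    (hc : ∀ D, (c D).card ≤ D.card) (S : Cedent V)
    (hn : ∀ D ∈ S, ∀ l ∈ c D, kind l.1 = .q → neg ∨ l.2 = true) :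
    ∃ f, Ext kind neg L (∑ D ∈ S, (3 * D.card + 2) + 1) f ∧
      ∀ a, f a = true ↔ ∀ D ∈ S, ∃ l ∈ c D, kind l.1 = .q ∧ a l.1 = l.2 := by
  classical
  induction S using Finset.induction_on with
  | empty =>
    refine ⟨fun _ => true, ⟨(fun _ => true) :: L, Circuit.const h true,
      fun f hf => List.mem_cons_of_mem _ hf, by simp, List.mem_cons_self⟩, fun a => ?_⟩
    simp
  | insert D S hD ih =>
    obtain ⟨f, ⟨L', hL', hsub, hlen, hf⟩, hfa⟩ :=
      ih fun D' hD' => hn D' (Finset.mem_insert_of_mem hD')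
    obtain ⟨g, ⟨L2, hL2, hsub2, hlen2, hg⟩, hga⟩ :=
      ext_clause hL' (c D) (hn D (Finset.mem_insert_self _ _))
    have hcD := hc D
    rw [Finset.sum_insert hD]
    refine ⟨fun a => f a && g a, ⟨_, Circuit.and hL2 (hsub2 hf) hg,
      fun g hg => List.mem_cons_of_mem _ (hsub2 (hsub hg)), ?_, List.mem_cons_self⟩, fun a => ?_⟩
    · rw [List.length_cons]
      omega
    · rw [Bool.and_eq_true, hfa, hga]
      constructor
      · rintro ⟨h1, h2⟩ E hE
        rcases Finset.mem_insert.1 hE with rfl | hE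
        · exact h2
        · exact h1 E hE
      · intro h1
        exact ⟨fun E hE => h1 E (Finset.mem_insert_of_mem hE), h1 D (Finset.mem_insert_self _ _)⟩

theorem sum_le_size (Γ S : Cedent V) (h : S ⊆ Γ) :
    ∑ D ∈ S, (3 * D.card + 2) + 1 ≤ 3 * size Γ := by
  unfold size
  have h1 : ∑ D ∈ S, (3 * D.card + 2) ≤ ∑ D ∈ Γ, (3 * D.card + 2) :=
    Finset.sum_le_sum_of_subset h
  have h2 : ∑ D ∈ Γ, (3 * D.card + 2) ≤ ∑ D ∈ Γ, 3 * (1 + D.card) :=
    Finset.sum_le_sum fun D _ => by omega
  rw [← Finset.mul_sum] at h2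
  omega

/-- The gate for `AllQ`. -/
theorem ext_allQ {L : List ((V → Bool) → Bool)} (h : Circuit kind neg L) (Γ : Cedent V)
    (l : V × Bool) (hn : ∀ D ∈ Γ, l ∈ D → ∀ l' ∈ D, kind l'.1 = .q → neg ∨ l'.2 = true) :
    ∃ g, Ext kind neg L (3 * size Γ) g ∧ ∀ a, g a = true ↔ AllQ kind Γ l a := by
  classical
  obtain ⟨g, ⟨L', hL', hsub, hlen, hg⟩, hga⟩ := ext_all h (fun D => D.erase l)
    (fun D => Finset.card_erase_le)
    (Γ.filter fun D => l ∈ D ∧ ∀ l' ∈ D.erase l, kind l'.1 = .q) (fun D hD l' hl' => by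
      obtain ⟨h3, h4, _⟩ := Finset.mem_filter.1 hD
      exact hn D h3 h4 l' (Finset.mem_of_mem_erase hl'))
  have h1 := sum_le_size Γ _ (Finset.filter_subset
    (fun D => l ∈ D ∧ ∀ l' ∈ D.erase l, kind l'.1 = .q) Γ)
  refine ⟨g, ⟨L', hL', hsub, by omega, hg⟩, fun a => ?_⟩
  rw [hga]
  constructor
  · intro h2 D hD hl hq
    exact h2 D (Finset.mem_filter.2 ⟨hD, hl, hq⟩)
  · intro h2 D hD
    obtain ⟨h3, h4, h5⟩ := Finset.mem_filter.1 hD
    exact h2 D h3 h4 h5

theorem one_le_size (Γ : Cedent V) : 1 ≤ size Γ := by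
  unfold size
  omega

/-- One logical inference. -/
theorem ext_logic {L : List ((V → Bool) → Bool)} (h : Circuit kind True L) {G H Cs : Cedent V}
    {l : V × Bool} {fj fk : (V → Bool) → Bool} (hfj : fj ∈ L) (hfk : fk ∈ L)
    (hj : Claim kind (No kind .r) (No kind .p) (G ∪ Cs) fj)
    (hk : Claim kind (No kind .r) (No kind .p) (H ∪ {{l}}) fk)
    (hnm : ∀ C ∈ G ∪ H ∪ Cs.image (insert l), No kind .r C ∨ No kind .p C) :
    ∃ f, Ext kind True L (6 * size (G ∪ H ∪ Cs.image (insert l))) f ∧
      Claim kind (No kind .r) (No kind .p) (G ∪ H ∪ Cs.image (insert l)) f := by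
  have h1 := one_le_size (G ∪ H ∪ Cs.image (insert l))
  cases hv : kind l.1 with
  | p =>
    obtain ⟨g, ⟨L', hL', hsub, hlen, hg⟩, hga⟩ :=
      ext_allQ h (G ∪ H ∪ Cs.image (insert l)) l fun _ _ _ _ _ _ => Or.inl trivial
    refine ⟨fun a => fj a && g a || fk a, ⟨_, Circuit.or (Circuit.and hL' (hsub hfj) hg)
      List.mem_cons_self (List.mem_cons_of_mem _ (hsub hfk)),
      fun e he => List.mem_cons_of_mem _ (List.mem_cons_of_mem _ (hsub he)), ?_,
      List.mem_cons_self⟩, claim_logic_p hv hj hk hnm hga fun a => rfl⟩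
    rw [List.length_cons, List.length_cons]
    omega
  | r =>
    obtain ⟨g, ⟨L', hL', hsub, hlen, hg⟩, hga⟩ :=
      ext_allQ h (G ∪ H ∪ Cs.image (insert l)) l fun _ _ _ _ _ _ => Or.inl trivial
    refine ⟨fun a => (fj a || !g a) && fk a, ⟨_, Circuit.and (Circuit.or
      (Circuit.not hL' trivial hg)
      (List.mem_cons_of_mem _ (hsub hfj)) List.mem_cons_self)
      List.mem_cons_self (List.mem_cons_of_mem _ (List.mem_cons_of_mem _ (hsub hfk))),
      fun e he => List.mem_cons_of_mem _ (List.mem_cons_of_mem _ (List.mem_cons_of_mem _ (hsub he))),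
      ?_, List.mem_cons_self⟩, claim_logic_r hv hj hk hnm hga fun a => rfl⟩
    rw [List.length_cons, List.length_cons, List.length_cons]
    omega
  | q =>
    obtain ⟨L', hL', hsub, hlen, hg⟩ := ext_lit h hv l.2 (Or.inl trivial)
    have hm1 := Circuit.not hL' trivial hg
    have hm2 := Circuit.and hm1 (List.mem_cons_of_mem _ hg) (List.mem_cons_of_mem _ (hsub hfk))
    have hm3 := Circuit.and hm2 (List.mem_cons_of_mem _ List.mem_cons_self)
      (List.mem_cons_of_mem _ (List.mem_cons_of_mem _ (hsub hfj)))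
    have hm4 := Circuit.or hm3 (List.mem_cons_of_mem _ List.mem_cons_self) List.mem_cons_self
    refine ⟨_, ⟨_, hm4, fun e he => ?_, ?_, List.mem_cons_self⟩,
      claim_logic_q hv hj hk fun a => ?_⟩
    · exact List.mem_cons_of_mem _ (List.mem_cons_of_mem _ (List.mem_cons_of_mem _
        (List.mem_cons_of_mem _ (hsub he))))
    · rw [List.length_cons, List.length_cons, List.length_cons, List.length_cons]
      omega
    · by_cases hay : a l.1 = l.2
      · simp [hay]
      · simp [hay]

theorem ext_init {L : List ((V → Bool) → Bool)} (h : Circuit kind True L) (x : V) :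
    ∃ f, Ext kind True L (6 * size ({{(x, true)}, {(x, false)}} : Cedent V)) f ∧
      Claim kind (No kind .r) (No kind .p) {{(x, true)}, {(x, false)}} f := by
  have h1 := one_le_size ({{(x, true)}, {(x, false)}} : Cedent V)
  by_cases hx : kind x = .r
  · refine ⟨_, ⟨_, Circuit.const h true, fun e he => List.mem_cons_of_mem _ he, ?_,
      List.mem_cons_self⟩, fun a b _ => ⟨fun h => Bool.noConfusion h, fun _ => ?_⟩⟩
    · rw [List.length_cons]
      omega
    · exact init_unsat x (no_single (by rw [hx]; exact nofun))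
        (no_single (by rw [hx]; exact nofun)) b
  · refine ⟨_, ⟨_, Circuit.const h false, fun e he => List.mem_cons_of_mem _ he, ?_,
      List.mem_cons_self⟩, fun a b _ => ⟨fun _ => ?_, fun h => Bool.noConfusion h⟩⟩
    · rw [List.length_cons]
      omega
    · exact init_unsat x (no_single hx) (no_single hx) b

/-- The general construction. -/
def general (kind : V → Kind) : Method kind True where
  Cl := Claim kind (No kind .r) (No kind .p)
  PA := No kind .r
  PB := No kind .p
  cost Γ := 6 * size Γ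
  sub h hD := hD.imp (fun hD l hl => hD l (h hl)) fun hD l hl => hD l (h hl)
  single l := by
    by_cases h : kind l.1 = .r
    · exact Or.inr (no_single (by rw [h]; exact nofun))
    · exact Or.inl (no_single h)
  priv hτ hf := claim_private hτ (fun C h => no_private hτ C h) (fun C h => no_private hτ C h) hf
  cost_ren σ Γ := by rw [size_ren]
  mono h hf := claim_mono h hf
  init x _ hL := ext_init hL x
  logic hL hfj hfk hj hk hnm := ext_logic hL hfj hfk hj hk hnm

end H57I
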