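import Pool.Agent.Lib.H57I.Mono

/-! # Interpolants from refutations with few renamed copies -/

set_option autoImplicit false

namespace H57I

variable {V : Type} [DecidableEq V] {kind : V → Kind}

/-- The conjunction of the pure clauses of `S` (those without variables of the kinds `s` and `s'`). -/
theorem ext_pure {neg : Prop} (S : Cedent V) (s : Kind) {L1 : List ((V → Bool) → Bool)}
    (hL1 : Circuit kind neg L1) (hn : ∀ C ∈ S, ∀ l ∈ C, kind l.1 = .q → neg ∨ l.2 = true)
    {Γ : Cedent V} (hS : S ⊆ Γ) :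
    ∃ g, Ext kind neg L1 (3 * size Γ) g ∧
      ∀ a, (g a = true ↔ ∀ C ∈ S, No kind s C → ∃ l ∈ C, kind l.1 = .q ∧ a l.1 = l.2) := by
  classical
  obtain ⟨g, ⟨L', hL', hsub, hlen, hg⟩, hga⟩ := ext_all hL1 id (fun D => le_rfl)
    (S.filter fun C => No kind s C) (fun D hD => hn D (Finset.mem_filter.1 hD).1)
  have h1 := sum_le_size Γ (S.filter fun C => No kind s C) ((Finset.filter_subset _ _).trans hS)
  refine ⟨g, ⟨L', hL', hsub, by omega, hg⟩, fun a => ?_⟩
  rw [hga]
  constructor
  · intro h1 C hC hn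
    exact h1 C (Finset.mem_filter.2 ⟨hC, hn⟩)
  · intro h1 C hC
    obtain ⟨h2, h3⟩ := Finset.mem_filter.1 hC
    exact h1 C h2 h3

theorem size_le_sum {P : Refutation V} {R : ℕ → Finset (Cedent V)} (hR : Copies P kind R) :
    size (P.line P.last) ≤ ∑ i ∈ Finset.range (P.last + 1), (R i).card * size (P.line i) := by
  have hv : 1 ≤ (R P.last).card := by
    obtain ⟨Δ, hΔ, _⟩ := hR P.last 1 Reach.root
    exact Finset.card_pos.2 ⟨Δ, hΔ⟩
  refine le_trans ?_ (Finset.single_le_sum (f := fun i =>
    (R i).card * size (P.line i)) (fun i _ => Nat.zero_le _)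
    (Finset.mem_range.2 (Nat.lt_succ_self P.last)))
  exact Nat.le_mul_of_pos_left _ hv

theorem sum_six {P : Refutation V} (R : ℕ → Finset (Cedent V)) :
    ∑ i ∈ Finset.range (P.last + 1), (R i).card * (6 * size (P.line i)) =
      6 * ∑ i ∈ Finset.range (P.last + 1), (R i).card * size (P.line i) := by
  rw [Finset.mul_sum]
  exact Finset.sum_congr rfl fun i _ => by ring

/-- The general interpolation theorem. -/
theorem interpolant (P : Refutation V) (kind : V → Kind) (A B : Cedent V)
    (hA : ∀ C ∈ A, ∀ l ∈ C, kind l.1 ≠ .r) (hB : ∀ C ∈ B, ∀ l ∈ C, kind l.1 ≠ .p)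
    (h : P.line P.last = A ∪ B) (R : ℕ → Finset (Cedent V)) (hR : Copies P kind R) :
    ∃ L f, Circuit kind True L ∧ f ∈ L ∧ Interpolates f A B ∧
      L.length ≤ 15 * ∑ i ∈ Finset.range (P.last + 1), (R i).card * size (P.line i) := by
  have hroot : ∀ C ∈ P.line P.last, (general kind).PA C ∨ (general kind).PB C := by
    intro C hC
    rw [h] at hC
    rcases Finset.mem_union.1 hC with hC | hC
    · exact Or.inl (hA C hC)
    · exact Or.inr (hB C hC)
  obtain ⟨L, hL, hlen, hinv⟩ := build (general kind) hroot R hR (P.last + 1)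
  obtain ⟨f, hf, hfc⟩ := hinv P.last (Nat.lt_succ_self _) _ Reach.root
  rw [ren_one] at hfc
  have hfc : Claim kind (No kind .r) (No kind .p) (P.line P.last) f := hfc
  have hlen : L.length ≤ ∑ i ∈ Finset.range (P.last + 1), (R i).card * (6 * size (P.line i)) := hlen
  have hcomp : ∀ a, Compat kind a a := fun a x _ => rfl
  obtain ⟨gA, ⟨L1, hL1, hsub1, hlen1, hgA⟩, hgAa⟩ := ext_pure A .p hL
    (fun _ _ _ _ _ => Or.inl trivial) (Γ := P.line P.last) (by rw [h]; exact Finset.subset_union_left)
  obtain ⟨gB, ⟨L2, hL2, hsub2, hlen2, hgB⟩, hgBa⟩ := ext_pure B .r hL1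
    (fun _ _ _ _ _ => Or.inl trivial) (Γ := P.line P.last) (by rw [h]; exact Finset.subset_union_right)
  have hm1 := Circuit.and hL2 (hsub2 (hsub1 hf)) (hsub2 hgA)
  have hm2 := Circuit.not hm1 trivial (List.mem_cons_of_mem _ hgB)
  have hm3 := Circuit.or hm2 (List.mem_cons_of_mem _ List.mem_cons_self) List.mem_cons_self
  -- pure clauses of `A` hold under assignments satisfying `A`
  have hpA : ∀ a, Sat a A → gA a = true := by
    intro a ha
    rw [hgAa]
    intro C hC hn
    obtain ⟨l, hl, hal⟩ := ha C hC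
    exact ⟨l, hl, kind_q (hn l hl) (hA C hC l hl), hal⟩
  have hpB : ∀ a, Sat a B → gB a = true := by
    intro a ha
    rw [hgBa]
    intro C hC hn
    obtain ⟨l, hl, hal⟩ := ha C hC
    exact ⟨l, hl, kind_q (hB C hC l hl) (hn l hl), hal⟩
  have hsat : ∀ a C, (∃ l ∈ C, kind l.1 = .q ∧ a l.1 = l.2) → SatC a C := by
    rintro a C ⟨l, hl, _, hay⟩
    exact ⟨l, hl, hay⟩
  refine ⟨_, _, hm3, List.mem_cons_self, ⟨fun a ha => ?_, ?_⟩, ?_⟩
  · obtain ⟨h0, _⟩ := hfc a a (hcomp a)
    show (f a && gA a || !gB a) = true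
    cases hfa : f a with
    | true =>
      rw [hpA a ha]
      rfl
    | false =>
      cases hgb : gB a with
      | false => simp
      | true =>
        exfalso
        refine h0 hfa fun C hC hn => ?_
        rw [h] at hC
        rcases Finset.mem_union.1 hC with hC | hC
        · exact ha C hC
        · exact hsat a C ((hgBa a).1 hgb C hC hn)
  · rintro a ⟨hfa, hb⟩
    obtain ⟨_, h1⟩ := hfc a a (hcomp a)
    have hfa' : (f a && gA a || !gB a) = true := hfa
    rw [hpB a hb] at hfa'
    have h2 : f a = true ∧ gA a = true := by simpa using hfa'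
    refine h1 h2.1 fun C hC hn => ?_
    rw [h] at hC
    rcases Finset.mem_union.1 hC with hC | hC
    · exact hsat a C ((hgAa a).1 h2.2 C hC hn)
    · exact hb C hC
  · rw [List.length_cons, List.length_cons, List.length_cons]
    have h1 := size_le_sum hR
    have h4 := one_le_size (P.line P.last)
    rw [sum_six] at hlen
    omega

/-- The monotone interpolation theorem. -/
theorem monotone_interpolant (P : Refutation V) (kind : V → Kind) (A B : Cedent V)
    (hA : ∀ C ∈ A, ∀ l ∈ C, kind l.1 ≠ .r) (hA' : PosQ kind A)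
    (hB : ∀ C ∈ B, ∀ l ∈ C, kind l.1 ≠ .p)
    (h : P.line P.last = A ∪ B) (R : ℕ → Finset (Cedent V)) (hR : Copies P kind R) :
    ∃ L f, Circuit kind False L ∧ f ∈ L ∧ Interpolates f A B ∧
      L.length ≤ 15 * ∑ i ∈ Finset.range (P.last + 1), (R i).card * size (P.line i) := by
  have hroot : ∀ C ∈ P.line P.last, (monotone kind).PA C ∨ (monotone kind).PB C := by
    intro C hC
    rw [h] at hC
    rcases Finset.mem_union.1 hC with hC | hC
    · by_cases hp : ∃ l ∈ C, kind l.1 = .p
      · exact Or.inl ⟨hp, fun l hl => ⟨hA C hC l hl, hA' C hC l hl⟩⟩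
      · exact Or.inr fun l hl hlp => hp ⟨l, hl, hlp⟩
    · exact Or.inr (hB C hC)
  obtain ⟨L, hL, hlen, hinv⟩ := build (monotone kind) hroot R hR (P.last + 1)
  obtain ⟨f, hf, hfc⟩ := hinv P.last (Nat.lt_succ_self _) _ Reach.root
  rw [ren_one] at hfc
  have hfc : Claim kind (Pos kind) (No kind .p) (P.line P.last) f := hfc
  have hlen : L.length ≤ ∑ i ∈ Finset.range (P.last + 1), (R i).card * (6 * size (P.line i)) := hlen
  obtain ⟨g, ⟨L1, hL1, hsub1, hlen1, hg⟩, hga⟩ := ext_pure A .p hL
    (fun C hC l hl hq => Or.inr (hA' C hC l hl hq)) (Γ := P.line P.last) (by rw [h]; exact Finset.subset_union_left)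
  have hm := Circuit.and hL1 (hsub1 hf) hg
  refine ⟨_, _, hm, List.mem_cons_self, ⟨fun a ha => ?_, ?_⟩, ?_⟩
  · show (f a && g a) = true
    rw [Bool.and_eq_true]
    constructor
    · cases hfa : f a with
      | true => rfl
      | false =>
        exfalso
        refine (hfc a a fun x _ => rfl).1 hfa fun C hC hn => ?_
        rw [h] at hC
        rcases Finset.mem_union.1 hC with hC | hC
        · exact ha C hC
        · exact (pos_not_no hn (hB C hC)).elim
    · rw [hga]
      intro C hC hn
      obtain ⟨l, hl, hal⟩ := ha C hC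
      exact ⟨l, hl, kind_q (hn l hl) (hA C hC l hl), hal⟩
  · rintro a ⟨hfa, hb⟩
    have hfa' : (f a && g a) = true := hfa
    rw [Bool.and_eq_true] at hfa'
    refine (hfc a a fun x _ => rfl).2 hfa'.1 fun C hC hn => ?_
    rw [h] at hC
    rcases Finset.mem_union.1 hC with hC | hC
    · obtain ⟨l, hl, _, hal⟩ := (hga a).1 hfa'.2 C hC hn
      exact ⟨l, hl, hal⟩
    · exact hb C hC
  · rw [List.length_cons]
    have h1 := size_le_sum hR
    have h4 := one_le_size (P.line P.last)
    rw [sum_six] at hlen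
    omega

theorem circuit_mono {neg neg' : Prop} (hn : neg → neg') {L : List ((V → Bool) → Bool)}
    (h : Circuit kind neg L) : Circuit kind neg' L := by
  induction h with
  | nil => exact Circuit.nil
  | const h b ih => exact Circuit.const ih b
  | input h x hx ih => exact Circuit.input ih x hx
  | not h hn' hf ih => exact Circuit.not ih (hn hn') hf
  | and h hf hg ih => exact Circuit.and ih hf hg
  | or h hf hg ih => exact Circuit.or ih hf hg

/-- Both theorems together. -/
theorem bound_copies (P : Refutation V) (kind : V → Kind) (A B : Cedent V)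
    (hA : ∀ C ∈ A, ∀ l ∈ C, kind l.1 ≠ .r) (hB : ∀ C ∈ B, ∀ l ∈ C, kind l.1 ≠ .p)
    (h : P.line P.last = A ∪ B) (R : ℕ → Finset (Cedent V)) (hR : Copies P kind R) :
    Bound P kind A B fun i => (R i).card := by
  by_cases hA' : PosQ kind A
  · obtain ⟨L, f, h1, h2, h3, h4⟩ := monotone_interpolant P kind A B hA hA' hB h R hR
    exact ⟨L, f, circuit_mono (fun h => h.elim) h1, h2, h3, h4⟩
  · obtain ⟨L, f, h1, h2, h3, h4⟩ := interpolant P kind A B hA hB h R hR
    exact ⟨L, f, circuit_mono (fun _ => hA') h1, h2, h3, h4⟩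

end H57I
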