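import Pool.Agent.Lib.H57I.Gate

/-! # The monotone construction: shared variables positive in the first part -/

set_option autoImplicit false

namespace H57I

variable {V : Type} [DecidableEq V] {kind : V → Kind}

/-- A clause of the first part: it has a variable of kind `p`, none of kind `r`, and shared variables
only positively. -/
def Pos (kind : V → Kind) (C : Clause V) : Prop :=
  (∃ l ∈ C, kind l.1 = .p) ∧ ∀ l ∈ C, kind l.1 ≠ .r ∧ (kind l.1 = .q → l.2 = true)

theorem pos_not_no {C : Clause V} (h : Pos kind C) (h' : No kind .p C) : False := by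
  obtain ⟨⟨l, hl, hp⟩, _⟩ := h
  exact h' l hl hp

theorem pos_or_sub {C D : Clause V} (h : C ⊆ D) (hD : Pos kind D ∨ No kind .p D) :
    Pos kind C ∨ No kind .p C := by
  rcases hD with hD | hD
  · by_cases hC : ∃ l ∈ C, kind l.1 = .p
    · exact Or.inl ⟨hC, fun l hl => hD.2 l (h hl)⟩
    · exact Or.inr fun l hl hp => hC ⟨l, hl, hp⟩
  · exact Or.inr fun l hl => hD l (h hl)

theorem pos_single {l : V × Bool} (h : kind l.1 = .p) : Pos kind {l} := by
  refine ⟨⟨l, Finset.mem_singleton_self l, h⟩, fun l' hl' => ?_⟩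
  rw [Finset.mem_singleton.1 hl', h]
  exact ⟨nofun, nofun⟩

theorem pos_private {τ : Equiv.Perm V} (hτ : Private kind τ) (C : Clause V) (h : Pos kind C) :
    Pos kind (renC τ C) := by
  obtain ⟨⟨l, hl, hp⟩, h2⟩ := h
  refine ⟨⟨(τ l.1, l.2), Finset.mem_image.2 ⟨l, hl, rfl⟩, ((hτ l.1).1).trans hp⟩, fun l hl => ?_⟩
  obtain ⟨l', hl', rfl⟩ := Finset.mem_image.1 hl
  show kind (τ l'.1) ≠ .r ∧ (kind (τ l'.1) = .q → l'.2 = true)
  rw [(hτ l'.1).1]
  exact h2 l' hl'

section logic

variable {G H Cs : Cedent V} {l : V × Bool} {fj fk : (V → Bool) → Bool}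

theorem mono_p (hp : kind l.1 = .p)
    (hj : Claim kind (Pos kind) (No kind .p) (G ∪ Cs) fj)
    (hk : Claim kind (Pos kind) (No kind .p) (H ∪ {{l}}) fk)
    (hnm : ∀ C ∈ G ∪ H ∪ Cs.image (insert l), Pos kind C ∨ No kind .p C)
    {g f : (V → Bool) → Bool}
    (hg : ∀ a, g a = true ↔ AllQ kind (G ∪ H ∪ Cs.image (insert l)) l a)
    (hf : ∀ a, f a = (fj a && g a || fk a)) :
    Claim kind (Pos kind) (No kind .p) (G ∪ H ∪ Cs.image (insert l)) f := by
  intro a b hab
  obtain ⟨hj0, hj1⟩ := hj a b hab
  obtain ⟨hk0, hk1⟩ := hk a b hab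
  have hlD : ∀ D ∈ G ∪ H ∪ Cs.image (insert l), l ∈ D → Pos kind D := by
    intro D hD hl
    rcases hnm D hD with h | h
    · exact h
    · exact absurd hp (h l hl)
  rw [hf]
  constructor
  · intro hfa hall
    rw [Bool.or_eq_false_iff, Bool.and_eq_false_iff] at hfa
    by_cases hb : b l.1 = l.2
    · exact hk0 hfa.2 (down_k (fun _ => hb) hall)
    · have hA : AllQ kind (G ∪ H ∪ Cs.image (insert l)) l a :=
        allQ_false hab hb fun D hD hl => hall D hD (hlD D hD hl)
      rcases hfa.1 with h2 | h2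
      · exact hj0 h2 (down_j (fun C hC _ =>
          Or.inr ⟨hlD _ (mem_Cs hC) (Finset.mem_insert_self _ _), hb⟩) hall)
      · rw [(hg a).2 hA] at h2
        exact Bool.noConfusion h2
  · intro hfa hall
    rw [Bool.or_eq_true, Bool.and_eq_true] at hfa
    rcases hfa with h | h
    · refine hj1 h.1 fun C hC hn => ?_
      rcases Finset.mem_union.1 hC with hC | hC
      · exact hall C (mem_G hC) hn
      · have hlC : l ∉ C := fun h => hn l h hp
        have h1 := hlD _ (mem_Cs (G := G) (H := H) (l := l) hC) (Finset.mem_insert_self _ _)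
        refine allQ_sat hab ((hg a).1 h.2) (mem_Cs hC) hlC fun l' hl' => ?_
        exact kind_q (hn l' hl') (h1.2 l' (Finset.mem_insert_of_mem hl')).1
    · exact hk1 h (down_k (fun h => absurd hp (h l (Finset.mem_singleton_self l))) hall)

theorem mono_and (hp : kind l.1 ≠ .p) (hins : ∀ C ∈ Cs, No kind .p (insert l C))
    (hj : Claim kind (Pos kind) (No kind .p) (G ∪ Cs) fj)
    (hk : Claim kind (Pos kind) (No kind .p) (H ∪ {{l}}) fk)
    {f : (V → Bool) → Bool} (hf : ∀ a, f a = (fj a && fk a)) :
    Claim kind (Pos kind) (No kind .p) (G ∪ H ∪ Cs.image (insert l)) f := by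
  intro a b hab
  obtain ⟨hj0, hj1⟩ := hj a b hab
  obtain ⟨hk0, hk1⟩ := hk a b hab
  rw [hf]
  constructor
  · intro hfa hall
    rw [Bool.and_eq_false_iff] at hfa
    rcases hfa with h | h
    · refine hj0 h fun C hC hn => ?_
      rcases Finset.mem_union.1 hC with hC | hC
      · exact hall C (mem_G hC) hn
      · exact (pos_not_no hn fun l' hl' => hins C hC l' (Finset.mem_insert_of_mem hl')).elim
    · refine hk0 h (down_k (fun h => ?_) hall)
      exact (pos_not_no h (no_single hp)).elim
  · intro hfa hall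
    rw [Bool.and_eq_true] at hfa
    by_cases hb : b l.1 = l.2
    · exact hk1 hfa.2 (down_k (fun _ => hb) hall)
    · exact hj1 hfa.1 (down_j (fun C hC _ => Or.inr ⟨hins C hC, hb⟩) hall)

theorem mono_q (hq : kind l.1 = .q) (hl : l.2 = true)
    (hj : Claim kind (Pos kind) (No kind .p) (G ∪ Cs) fj)
    (hk : Claim kind (Pos kind) (No kind .p) (H ∪ {{l}}) fk)
    (hnm : ∀ C ∈ G ∪ H ∪ Cs.image (insert l), Pos kind C ∨ No kind .p C)
    {f : (V → Bool) → Bool} (hf : ∀ a, f a = (fk a && (a l.1 || fj a))) :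
    Claim kind (Pos kind) (No kind .p) (G ∪ H ∪ Cs.image (insert l)) f := by
  intro a b hab
  have hbl : b l.1 = a l.1 := hab _ hq
  have hp : kind l.1 ≠ .p := by rw [hq]; exact nofun
  obtain ⟨hj0, hj1⟩ := hj a b hab
  obtain ⟨hk0, hk1⟩ := hk a b hab
  rw [hf]
  constructor
  · intro hfa hall
    rw [Bool.and_eq_false_iff, Bool.or_eq_false_iff] at hfa
    rcases hfa with h | ⟨h, h'⟩
    · refine hk0 h (down_k (fun h => ?_) hall)
      exact (pos_not_no h (no_single hp)).elim
    · have hb : b l.1 ≠ l.2 := by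
        rw [hbl, h, hl]
        exact nofun
      refine hj0 h' (down_j (fun C hC hn => Or.inr ⟨?_, hb⟩) hall)
      rcases hnm _ (mem_Cs hC) with h1 | h1
      · exact h1
      · exact (pos_not_no hn fun l' hl' => h1 l' (Finset.mem_insert_of_mem hl')).elim
  · intro hfa hall
    rw [Bool.and_eq_true, Bool.or_eq_true] at hfa
    by_cases hb : b l.1 = l.2
    · exact hk1 hfa.1 (down_k (fun _ => hb) hall)
    · rcases hfa.2 with h | h
      · rw [hbl, h, hl] at hb
        exact hb rfl
      · exact hj1 h (down_j (fun C _ hn => Or.inr ⟨no_insert hp hn, hb⟩) hall)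

end logic

theorem mono_ext_init {L : List ((V → Bool) → Bool)} (h : Circuit kind False L) (x : V) :
    ∃ f, Ext kind False L (6 * size ({{(x, true)}, {(x, false)}} : Cedent V)) f ∧
      Claim kind (Pos kind) (No kind .p) {{(x, true)}, {(x, false)}} f := by
  have h1 := one_le_size ({{(x, true)}, {(x, false)}} : Cedent V)
  by_cases hx : kind x = .p
  · refine ⟨_, ⟨_, Circuit.const h false, fun e he => List.mem_cons_of_mem _ he, ?_,
      List.mem_cons_self⟩, fun a b _ => ⟨fun _ => ?_, fun h => Bool.noConfusion h⟩⟩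
    · rw [List.length_cons]
      omega
    · exact init_unsat x (pos_single hx) (pos_single hx) b
  · refine ⟨_, ⟨_, Circuit.const h true, fun e he => List.mem_cons_of_mem _ he, ?_,
      List.mem_cons_self⟩, fun a b _ => ⟨fun h => Bool.noConfusion h, fun _ => ?_⟩⟩
    · rw [List.length_cons]
      omega
    · exact init_unsat x (no_single hx) (no_single hx) b

theorem mono_ext_logic {L : List ((V → Bool) → Bool)} (h : Circuit kind False L)
    {G H Cs : Cedent V}
    {l : V × Bool} {fj fk : (V → Bool) → Bool} (hfj : fj ∈ L) (hfk : fk ∈ L)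
    (hj : Claim kind (Pos kind) (No kind .p) (G ∪ Cs) fj)
    (hk : Claim kind (Pos kind) (No kind .p) (H ∪ {{l}}) fk)
    (hnm : ∀ C ∈ G ∪ H ∪ Cs.image (insert l), Pos kind C ∨ No kind .p C) :
    ∃ f, Ext kind False L (6 * size (G ∪ H ∪ Cs.image (insert l))) f ∧
      Claim kind (Pos kind) (No kind .p) (G ∪ H ∪ Cs.image (insert l)) f := by
  have h1 := one_le_size (G ∪ H ∪ Cs.image (insert l))
  have hand : kind l.1 ≠ .p → (∀ C ∈ Cs, No kind .p (insert l C)) →
      ∃ f, Ext kind False L (6 * size (G ∪ H ∪ Cs.image (insert l))) f ∧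
        Claim kind (Pos kind) (No kind .p) (G ∪ H ∪ Cs.image (insert l)) f := by
    intro hp hins
    refine ⟨_, ⟨_, Circuit.and h hfj hfk, fun e he => List.mem_cons_of_mem _ he, ?_,
      List.mem_cons_self⟩, mono_and hp hins hj hk fun a => rfl⟩
    rw [List.length_cons]
    omega
  cases hv : kind l.1 with
  | p =>
    obtain ⟨g, ⟨L', hL', hsub, hlen, hg⟩, hga⟩ :=
      ext_allQ h (G ∪ H ∪ Cs.image (insert l)) l fun D hD hl l' hl' hq => by
        rcases hnm D hD with h2 | h2
        · exact Or.inr ((h2.2 l' hl').2 hq)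
        · exact absurd hv (h2 l hl)
    refine ⟨fun a => fj a && g a || fk a, ⟨_, Circuit.or (Circuit.and hL' (hsub hfj) hg)
      List.mem_cons_self (List.mem_cons_of_mem _ (hsub hfk)),
      fun e he => List.mem_cons_of_mem _ (List.mem_cons_of_mem _ (hsub he)), ?_,
      List.mem_cons_self⟩, mono_p hv hj hk hnm hga fun a => rfl⟩
    rw [List.length_cons, List.length_cons]
    omega
  | r =>
    refine hand (by rw [hv]; exact nofun) fun C hC => ?_
    rcases hnm _ (mem_Cs hC) with h2 | h2
    · exact absurd hv (h2.2 l (Finset.mem_insert_self _ _)).1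
    · exact h2
  | q =>
    cases hl : l.2 with
    | true =>
      refine ⟨_, ⟨_, Circuit.and (Circuit.or (Circuit.input h l.1 hv) List.mem_cons_self
        (List.mem_cons_of_mem _ hfj)) (List.mem_cons_of_mem _ (List.mem_cons_of_mem _ hfk))
        List.mem_cons_self, fun e he => List.mem_cons_of_mem _ (List.mem_cons_of_mem _
        (List.mem_cons_of_mem _ he)), ?_, List.mem_cons_self⟩, mono_q hv hl hj hk hnm fun a => rfl⟩
      rw [List.length_cons, List.length_cons, List.length_cons]
      omega
    | false =>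
      refine hand (by rw [hv]; exact nofun) fun C hC => ?_
      rcases hnm _ (mem_Cs hC) with h2 | h2
      · have h3 := (h2.2 l (Finset.mem_insert_self _ _)).2 hv
        rw [hl] at h3
        exact Bool.noConfusion h3
      · exact h2

/-- The monotone construction. -/
def monotone (kind : V → Kind) : Method kind False where
  Cl := Claim kind (Pos kind) (No kind .p)
  PA := Pos kind
  PB := No kind .p
  cost Γ := 6 * size Γ
  sub := pos_or_sub
  single l := by
    by_cases h : kind l.1 = .p
    · exact Or.inl (pos_single h)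
    · exact Or.inr (no_single h)
  priv hτ hf := claim_private hτ (fun C h => pos_private hτ C h) (fun C h => no_private hτ C h) hf
  cost_ren σ Γ := by rw [size_ren]
  mono h hf := claim_mono h hf
  init x _ hL := mono_ext_init hL x
  logic hL hfj hfk hj hk hnm := mono_ext_logic hL hfj hfk hj hk hnm

end H57I
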